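import Pool.Agent.Zk27.MB.Cut3
import Pool.Agent.Zk27.MB.E

/-! # Operators of class `IsReg`: uniqueness hypotheses, multiples, energy -/

open MeasureTheory Set
open scoped ContDiff Topology

namespace Pool.Agent.Zk27.MB

open Pool.Agent.H708R2.EulerSign

/-- An operator of class `IsReg` satisfies what is needed for uniqueness. -/
theorem isOp_of_isReg {om : ℝ → ℝ} {T : (V → V) → V → V} (h : IsReg om T) : ∃ C, IsOp T C := by
  obtain ⟨C₁, hC₁, h1⟩ := h.l2
  obtain ⟨C₂, hC₂, h2⟩ := h.ck 1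
  refine ⟨max C₁ C₂, ?_, ?_, ?_, ?_, h.div⟩
  · intro u hu hp
    obtain ⟨B, -, hB⟩ := hp.bounded hu
    obtain ⟨C, -, h0⟩ := h.ck 0
    have h3 := h0 u B (contDiff_zero.2 hu) hp (fun j hj x => by
      rw [Nat.le_zero.1 hj, norm_iteratedFDeriv_zero]
      exact hB x)
    exact ⟨h3.1.continuous, h.per u hu hp⟩
  · intro u w hu hpu hw hpw
    have hw' : Continuous (fun x => (-1 : ℝ) • w x) := by fun_prop
    have hpw' : Periodic3 (fun x => (-1 : ℝ) • w x) := by
      intro i x
      simp only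
      rw [hpw i x]
    have h1 := h.add u (fun x => (-1 : ℝ) • w x) hu hpu hw' hpw'
    rw [h.smul (-1) w hw hpw] at h1
    have e1 : (fun x => u x - w x) = fun x => u x + (-1 : ℝ) • w x := by
      funext x
      rw [neg_one_smul, sub_eq_add_neg]
    rw [e1, h1]
    funext x
    show T u x + (-1 : ℝ) • T w x = T u x - T w x
    rw [neg_one_smul, sub_eq_add_neg]
  · intro u hu hp
    refine (h1 u hu hp).trans ?_
    have h3 : 0 ≤ ∫ x in Dom, sq3 (u x) := by
      refine integral_nonneg fun x => ?_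
      show 0 ≤ sq3 (u x)
      unfold sq3
      positivity
    have h4 : C₁ ^ 2 ≤ max C₁ C₂ ^ 2 := by
      have := le_max_left C₁ C₂
      gcongr
    exact mul_le_mul_of_nonneg_right h4 h3
  · intro u B hu hp hB0 hB
    have h3 := h2 u B hu hp (fun j hj x => by
      rcases Nat.le_one_iff_eq_zero_or_eq_one.1 hj with rfl | rfl
      · rw [norm_iteratedFDeriv_zero]
        exact hB0 x
      · rw [norm_iteratedFDeriv_one]
        exact hB x)
    have hB' : 0 ≤ B := (norm_nonneg _).trans (hB0 0)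
    refine ⟨h3.1, fun x => ?_⟩
    have h4 := h3.2.1 x
    rw [norm_iteratedFDeriv_one] at h4
    exact h4.trans (mul_le_mul_of_nonneg_right (le_max_right _ _) hB')

/-- Multiples of an operator of class `IsReg`. -/
theorem isReg_smul {om : ℝ → ℝ} {T : (V → V) → V → V} (hom : ∀ r, 0 < r → 0 < om r)
    (h : IsReg om T) (ε : ℝ) : IsReg om (fun u x => ε • T u x) := by
  have cont : ∀ u, Continuous u → Periodic3 u → Continuous (T u) := by
    intro u hu hp
    obtain ⟨C, hT⟩ := isOp_of_isReg h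
    exact (hT.cont u hu hp).1
  have ipl : ∀ f g : V → V, ip (fun x => ε • f x) g = ε * ip f g := by
    intro f g
    unfold ip
    rw [← integral_const_mul]
    congr 1
    funext x
    rw [Finset.mul_sum]
    refine Finset.sum_congr rfl fun i _ => ?_
    show (ε * f x i) * g x i = _
    ring
  refine ⟨?_, ?_, ?_, ?_, ?_, ?_, ?_⟩
  · intro u hu hp i x
    simp only
    rw [h.per u hu hp i x]
  · intro u w hu hpu hw hpw
    funext x
    rw [h.add u w hu hpu hw hpw, smul_add]
  · intro a u hu hp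
    funext x
    rw [h.smul a u hu hp, smul_comm]
  · intro u w hu hpu hw hpw
    rw [ipl, h.symm u w hu hpu hw hpw, En.ip_comm u (T w), En.ip_comm u, ipl]
  · intro u hu hp x
    have h1 := h.div u hu hp x
    obtain ⟨C, hT⟩ := isOp_of_isReg h
    obtain ⟨B1, -, hB1⟩ := hp.bounded hu.continuous
    obtain ⟨B2, -, hB2⟩ := hp.fderiv.bounded (hu.continuous_fderiv one_ne_zero)
    have cT : ContDiff ℝ 1 (T u) :=
      (hT.c1 u (max B1 B2) hu hp (fun x => (hB1 x).trans (le_max_left _ _))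
        (fun x => (hB2 x).trans (le_max_right _ _))).1
    have e : fderiv ℝ (fun x => ε • T u x) x = ε • fderiv ℝ (T u) x :=
      ((cT.differentiable one_ne_zero x).hasFDerivAt.const_smul ε).fderiv
    rw [divergence_eq_sum] at h1 ⊢
    rw [e]
    simp only [smul_apply, Pi.smul_apply, smul_eq_mul]
    rw [← Finset.mul_sum, h1, mul_zero]
  · obtain ⟨C, hC, h1⟩ := h.l2
    refine ⟨(|ε| + 1) * C, by positivity, fun u hu hp => ?_⟩
    have h3 : 0 ≤ ∫ x in Dom, sq3 (u x) := by
      refine integral_nonneg fun x => ?_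
      show 0 ≤ sq3 (u x)
      unfold sq3
      positivity
    have e : (fun x => sq3 (ε • T u x)) = fun x => ε ^ 2 * sq3 (T u x) := by
      funext x
      unfold sq3
      rw [Finset.mul_sum]
      refine Finset.sum_congr rfl fun i _ => ?_
      show (ε * T u x i) ^ 2 = _
      ring
    have e' : ∫ x in Dom, sq3 (ε • T u x) = ε ^ 2 * ∫ x in Dom, sq3 (T u x) := by
      rw [← integral_const_mul]
      exact congrArg (fun f => ∫ x in Dom, f x) e
    have h4 : ε ^ 2 ≤ (|ε| + 1) ^ 2 := by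
      rw [← sq_abs ε]
      have := abs_nonneg ε
      gcongr
      linarith
    calc ∫ x in Dom, sq3 (ε • T u x) = ε ^ 2 * ∫ x in Dom, sq3 (T u x) := e'
      _ ≤ ε ^ 2 * (C ^ 2 * ∫ x in Dom, sq3 (u x)) :=
          mul_le_mul_of_nonneg_left (h1 u hu hp) (sq_nonneg _)
      _ ≤ (|ε| + 1) ^ 2 * (C ^ 2 * ∫ x in Dom, sq3 (u x)) :=
          mul_le_mul_of_nonneg_right h4 (mul_nonneg (sq_nonneg _) h3)
      _ = ((|ε| + 1) * C) ^ 2 * ∫ x in Dom, sq3 (u x) := by ring
  · intro k
    obtain ⟨C, hC, h1⟩ := h.ck k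
    refine ⟨(|ε| + 1) * C, by positivity, fun u B hu hp hB => ?_⟩
    obtain ⟨h2, h3, h4⟩ := h1 u B hu hp hB
    have hB' : 0 ≤ B := (norm_nonneg _).trans (hB 0 (Nat.zero_le k) 0)
    have e : ∀ x, iteratedFDeriv ℝ k (fun x => ε • T u x) x = ε • iteratedFDeriv ℝ k (T u) x :=
      fun x => iteratedFDeriv_const_smul_apply' h2.contDiffAt
    refine ⟨h2.const_smul ε, fun x => ?_, fun x y hxy => ?_⟩
    · rw [e, norm_smul, Real.norm_eq_abs]
      calc |ε| * ‖iteratedFDeriv ℝ k (T u) x‖ ≤ |ε| * (C * B) :=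
            mul_le_mul_of_nonneg_left (h3 x) (abs_nonneg _)
        _ ≤ (|ε| + 1) * C * B := by nlinarith [mul_nonneg hC.le hB']
    · rw [e, e, ← smul_sub, norm_smul, Real.norm_eq_abs]
      have h5 : 0 < om ‖x - y‖ := hom _ (norm_pos_iff.2 (sub_ne_zero.2 hxy))
      have h6 : 0 ≤ C * B * om ‖x - y‖ := by positivity
      calc |ε| * ‖iteratedFDeriv ℝ k (T u) x - iteratedFDeriv ℝ k (T u) y‖ ≤
            |ε| * (C * B * om ‖x - y‖) := mul_le_mul_of_nonneg_left (h4 x y hxy) (abs_nonneg _)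
        _ ≤ (|ε| + 1) * C * B * om ‖x - y‖ := by nlinarith

open En in
/-- Conservation of the energy. -/
theorem energy3 {om : ℝ → ℝ} {T : (V → V) → V → V} (h : IsReg om T) {a : ℝ} {u : ℝ → V → V}
    {q : ℝ → V → ℝ} (hu : IsModSol T (Ico 0 a) u q) :
    ∀ t ∈ Ico 0 a,
      ip (u t) (fun x => u t x + T (u t) x) = ip (u 0) (fun x => u 0 x + T (u 0) x) := by
  obtain ⟨C, hT⟩ := isOp_of_isReg h
  obtain ⟨ε, hε0, hε1⟩ := h.ck 0
  have hε : 0 ≤ ε := hε0.le
  have small_sup : ∀ {f : V → V}, Continuous f → Periodic3 f → ∀ {B : ℝ}, (∀ x, ‖f x‖ ≤ B) →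
      ∀ x, ‖T f x‖ ≤ ε * B := by
    intro f hf pf B hB x
    have h1 := (hε1 f B (contDiff_zero.2 hf) pf (fun j hj x => by
      rw [Nat.le_zero.1 hj, norm_iteratedFDeriv_zero]
      exact hB x)).2.1 x
    rwa [norm_iteratedFDeriv_zero] at h1
  set E : ℝ → ℝ := fun s => ip (u s) (fun x => u s x + T (u s) x) with hE
  have slice : ∀ t ∈ Ico 0 a, Continuous (u t) ∧ Periodic3 (u t) ∧ Continuous (T (u t)) ∧
      Periodic3 (T (u t)) := fun t ht =>
    ⟨(contDiff_slice hu.contDiffOn_u ht).continuous, hu.periodic_u t ht,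
      hT.cont _ (contDiff_slice hu.contDiffOn_u ht).continuous (hu.periodic_u t ht)⟩
  -- the Lipschitz bounds
  have lips : ∀ b, 0 ≤ b → b < a → ∃ K : ℝ, 0 ≤ K ∧ ∀ t ∈ Icc 0 b, ∀ s ∈ Icc 0 b, ∀ x,
      ‖u s x - u t x‖ ≤ K * |s - t| ∧
      ‖(u s x + T (u s) x) - (u t x + T (u t) x)‖ ≤ (1 + ε) * (K * |s - t|) := by
    intro b hb0 hb
    obtain ⟨K, hK0, hK⟩ := lip_time hu.contDiffOn_u hu.periodic_u hb0 hb
    refine ⟨K, hK0, fun t ht s hs => ?_⟩
    have htI : t ∈ Ico 0 a := ⟨ht.1, ht.2.trans_lt hb⟩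
    have hsI : s ∈ Ico 0 a := ⟨hs.1, hs.2.trans_lt hb⟩
    obtain ⟨c1, p1, c2, p2⟩ := slice t htI
    obtain ⟨c3, p3, c4, p4⟩ := slice s hsI
    have pd : Periodic3 (fun x => u s x - u t x) := by
      intro i x
      simp only
      rw [p1 i x, p3 i x]
    have h1 := small_sup (c3.sub c1) pd (hK t ht s hs)
    intro x
    refine ⟨hK t ht s hs x, ?_⟩
    have h2 : (u s x + T (u s) x) - (u t x + T (u t) x) =
        (u s x - u t x) + T (fun x => u s x - u t x) x := by
      rw [hT.sub (u s) (u t) c3 p3 c1 p1]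
      show (u s x + T (u s) x) - (u t x + T (u t) x) = (u s x - u t x) + (T (u s) x - T (u t) x)
      abel
    rw [h2, add_mul, one_mul]
    exact (norm_add_le _ _).trans (add_le_add (hK t ht s hs x) (h1 x))
  -- the derivative in the interior
  have hder : ∀ t ∈ Ioo 0 a, HasDerivAt E 0 t := by
    intro t ht
    have htI : t ∈ Ico 0 a := ⟨ht.1.le, ht.2⟩
    obtain ⟨b, hb1, hb2⟩ := exists_between ht.2
    have hb0 : 0 ≤ b := ht.1.le.trans hb1.le
    obtain ⟨K, hK0, hK⟩ := lips b hb0 hb2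
    obtain ⟨c1, p1, c2, p2⟩ := slice t htI
    have cG : Continuous (fun x => u t x + T (u t) x) := c1.add c2
    have pG : Periodic3 (fun x => u t x + T (u t) x) := by
      intro i x
      simp only
      rw [p1 i x, p2 i x]
    have d1 := ip_hasDerivAt hT hu ht cG pG
    rw [flux_zero hT hu htI] at d1
    set R : ℝ → ℝ := fun s => ip (fun x => u s x - u t x)
      (fun x => (u s x + T (u s) x) - (u t x + T (u t) x)) with hR
    have d2 : HasDerivAt R 0 t := by
      have hO : R =O[𝓝 t] fun s => ‖s - t‖ ^ 2 := by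
        refine Asymptotics.IsBigO.of_bound (3 * (K * ((1 + ε) * K)) * (volume Dom).toReal) ?_
        filter_upwards [Icc_mem_nhds ht.1 hb1] with s hs
        have h3 := ip_le (fun x => (hK t ⟨ht.1.le, hb1.le⟩ s hs x).1)
          (fun x => (hK t ⟨ht.1.le, hb1.le⟩ s hs x).2)
        rw [Real.norm_eq_abs, Real.norm_eq_abs, Real.norm_eq_abs, abs_pow, abs_abs]
        refine h3.trans (le_of_eq ?_)
        ring
      have := hO.hasFDerivAt (𝕜 := ℝ) one_lt_two
      exact this.hasDerivAt
    have d3 : HasDerivAt (fun s => E t + 2 * (ip (u s) (fun x => u t x + T (u t) x) -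
        ip (u t) (fun x => u t x + T (u t) x)) + R s) 0 t := by
      have := (((d1.sub_const (ip (u t) (fun x => u t x + T (u t) x))).const_mul 2).const_add
        (E t)).fun_add d2
      exact this.congr_deriv (by ring)
    refine d3.congr_of_eventuallyEq ?_
    filter_upwards [Icc_mem_nhds ht.1 hb1] with s hs
    have hsI : s ∈ Ico 0 a := ⟨hs.1, hs.2.trans_lt hb2⟩
    obtain ⟨c3, p3, -, -⟩ := slice s hsI
    have := en_diff hT h.symm c3 c1 p3 p1
    simp only [hE, hR]
    linarith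
  -- continuity
  have hcont : ContinuousOn E (Ico 0 a) := by
    intro t ht
    obtain ⟨b, hb1, hb2⟩ := exists_between ht.2
    have hb0 : 0 ≤ b := ht.1.trans hb1.le
    obtain ⟨K, hK0, hK⟩ := lips b hb0 hb2
    obtain ⟨c1, p1, c2, p2⟩ := slice t ht
    have cG : Continuous (fun x => u t x + T (u t) x) := c1.add c2
    have pG : Periodic3 (fun x => u t x + T (u t) x) := by
      intro i x
      simp only
      rw [p1 i x, p2 i x]
    obtain ⟨B, hB0, hB⟩ := pG.bounded cG
    have hbd : ∀ s ∈ Icc 0 b, |E s - E t| ≤ (6 * (K * B) + 3 * (K * ((1 + ε) * K)) * b) *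
        (volume Dom).toReal * |s - t| := by
      intro s hs
      have hsI : s ∈ Ico 0 a := ⟨hs.1, hs.2.trans_lt hb2⟩
      have htb : t ∈ Icc 0 b := ⟨ht.1, hb1.le⟩
      obtain ⟨c3, p3, -, -⟩ := slice s hsI
      have e1 := en_diff hT h.symm c3 c1 p3 p1
      rw [← ip_sub_left c3 c1 cG p3 p1 pG] at e1
      have e2 := ip_le (fun x => (hK t htb s hs x).1) hB
      have e3 := ip_le (fun x => (hK t htb s hs x).1) (fun x => (hK t htb s hs x).2)
      have e4 : |s - t| ≤ b := by
        rw [abs_le]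
        constructor
        · linarith [hs.1, htb.2]
        · linarith [hs.2, htb.1]
      have e5 : E s - E t = 2 * ip (fun x => u s x - u t x) (fun x => u t x + T (u t) x) +
        ip (fun x => u s x - u t x) (fun x => (u s x + T (u s) x) - (u t x + T (u t) x)) := e1
      rw [e5]
      refine (abs_add_le _ _).trans ?_
      rw [abs_mul, abs_two]
      have e6 : 3 * (K * |s - t| * ((1 + ε) * (K * |s - t|))) * (volume Dom).toReal ≤
          3 * (K * ((1 + ε) * K)) * b * (volume Dom).toReal * |s - t| := by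
        have : 0 ≤ 3 * (K * ((1 + ε) * K)) * (volume Dom).toReal * |s - t| := by positivity
        nlinarith
      nlinarith
    have h0 : Filter.Tendsto (fun s => (6 * (K * B) + 3 * (K * ((1 + ε) * K)) * b) *
        (volume Dom).toReal * |s - t|) (𝓝[Ico 0 a] t) (𝓝 0) := by
      have : Continuous fun s => (6 * (K * B) + 3 * (K * ((1 + ε) * K)) * b) *
        (volume Dom).toReal * |s - t| := by fun_prop
      have h1 := this.tendsto t
      simp only [sub_self, abs_zero, mul_zero] at h1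
      exact h1.mono_left nhdsWithin_le_nhds
    rw [ContinuousWithinAt, tendsto_iff_dist_tendsto_zero]
    refine squeeze_zero' (Filter.Eventually.of_forall fun _ => dist_nonneg) ?_ h0
    have h1 : ∀ᶠ s in 𝓝[Ico 0 a] t, s < b := nhdsWithin_le_nhds (Iio_mem_nhds hb1)
    filter_upwards [h1, self_mem_nhdsWithin] with s hs1 hs2
    exact hbd s ⟨hs2.1, hs1.le⟩
  -- conclusion
  intro t ht
  have ha : (0 : ℝ) ∈ Ico 0 a := ⟨le_rfl, ht.1.trans_lt ht.2⟩
  have hint : interior (Ico 0 a) = Ioo 0 a := interior_Ico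
  have hd : DifferentiableOn ℝ E (interior (Ico 0 a)) := by
    rw [hint]
    exact fun s hs => (hder s hs).differentiableAt.differentiableWithinAt
  have hmono : MonotoneOn E (Ico 0 a) := monotoneOn_of_deriv_nonneg (convex_Ico _ _) hcont hd
    (by rw [hint]; exact fun s hs => (hder s hs).deriv.ge)
  have hanti : AntitoneOn E (Ico 0 a) := antitoneOn_of_deriv_nonpos (convex_Ico _ _) hcont hd
    (by rw [hint]; exact fun s hs => (hder s hs).deriv.le)
  exact le_antisymm (hanti ha ht ht.1) (hmono ha ht ht.1)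

end Pool.Agent.Zk27.MB
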